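import Pool.Agent.Helper89.WD.Final
import Pool.Agent.Helper89.WD.First
import Pool.Agent.Helper89.WD.Camp
import Pool.Agent.Helper89.WD.Vup
import Pool.Agent.Helper89.WD.VLow
import Pool.Agent.Helper89.WD.Vone
import Pool.Agent.Helper89.WD.Second
import Pool.Agent.Helper89.WD.Out
import Pool.Agent.Helper89.WD.Low1
import Pool.Agent.Helper89.WD.Low2
import Pool.Agent.Helper89.WD.Upg
import Pool.Agent.Helper89.WD.Pert
import Pool.Agent.Helper89.WD.Scale

/-!
# The width of the typical Poisson-Voronoi cell converges in probability

There is a constant `c` such that the normalised width of the typical cell of a homogeneous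
Poisson-Voronoi tessellation of `ℝ^d` tends to `c` in probability as `d → ∞`.

Outline. Let `Z` have intensity `1 / κ_d` and let `V` be the cell. The support function of `V` at `u`
is the gauge at `u` of the closed convex hull of `0` and the points `2 z / |z|²`, `z ∈ Z`. By a
greedy form of Maurey's lemma the boundary points of this hull in the directions `u`, `-u` are, up to
`O(m^{-1/2})`, averages of `m` of these points, so the width is attained, up to a small error, at a
configuration of at most `2 m` points of `Z` in a ball of fixed radius. By the first moment method
all such configurations have Gram matrices with all principal minors at least `1 - o(1)`; by the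
second moment method every Gram matrix with all principal minors larger than `1` is approximately
attained. So the width is, with high probability, close to the value of a variational problem over
finite Gram matrices which does not depend on `d`.
-/

namespace Pool.Agent.Results.MP_24911a_pr.WidthConverges

open MeasureTheory Pool.Agent.Helper89.WD

theorem result : ∃ c : ℝ, ∀ (Ω : ℕ → Type) (_ : ∀ d, MeasurableSpace (Ω d))
    (P : ∀ d, Measure (Ω d)) (_ : ∀ d, IsProbabilityMeasure (P d)) (lam : ℕ → ℝ)
    (Z : ∀ d, Ω d → Set (E d)),
    (∀ d, 1 ≤ d → 0 < lam d) → (∀ d, 1 ≤ d → IsPoissonProcess (P d) d (lam d) (Z d)) →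
    ∀ ε : ℝ, 0 < ε →
      Filter.Tendsto (fun d => P d {ω | ε < |W d (lam d) (Z d ω) - c|}) Filter.atTop (nhds 0) :=
  final (first camp (vone vup)) (second camp vup vlow) out (low2 l1) upg pert scale

end Pool.Agent.Results.MP_24911a_pr.WidthConverges
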